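import Pool.Agent.Work.MP_db9399_nc.Base

/-!
# MP_db9399, THEOREM NC, block OWN (Hall)
-/

set_option autoImplicit false

namespace Pool.Agent.Work.MP_db9399_nc.helper59

open Finset Classical
open Pool.Agent.Work.MP_db9399_all (nb)
open _root_.MP_db9399_co
open Pool.Agent.Work.MP_db9399_nc

universe u

theorem stmt_OWN : Stmt_OWN.{u} := by
  intro V _ Y f τ m B hB
  let cand : V → Finset (V × V) := fun i => (univ : Finset (V × V)).filter
      (fun p => Y.Adj p.1 p.2 ∧ f p.1 = i ∧ τ (f p.2) ≠ τ i)
  have hc : ∀ i p, p ∈ cand i ↔ Y.Adj p.1 p.2 ∧ f p.1 = i ∧ τ (f p.2) ≠ τ i := by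
    intro i p; simp [cand]
  let t : V → Finset (Sym2 V) := fun i => (cand i).image (fun p => s(p.1, p.2))
  have htc : ∀ i ∈ B, 2 * m ≤ (t i).card := by
    intro i hi
    have hinj : Set.InjOn (fun p : V × V => s(p.1, p.2)) (cand i : Set (V × V)) := by
      intro p hp q hq hpq
      rw [Finset.mem_coe, hc] at hp hq
      have h := Sym2.eq_iff.mp hpq
      rcases h with ⟨h1, h2⟩ | ⟨h1, h2⟩
      · exact Prod.ext h1 h2
      · exfalso
        apply hq.2.2
        rw [← h1, hp.2.1]
    show 2 * m ≤ ((cand i).image (fun p => s(p.1, p.2))).card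
    rw [Finset.card_image_of_injOn hinj]
    exact hB i hi
  have hend : ∀ i x y, s(x, y) ∈ t i → i = f x ∨ i = f y := by
    intro i x y h
    obtain ⟨p, hp, hpe⟩ := Finset.mem_image.mp h
    rw [hc] at hp
    rcases Sym2.eq_iff.mp hpe with ⟨h1, h2⟩ | ⟨h1, h2⟩
    · left; rw [← hp.2.1, h1]
    · right; rw [← hp.2.1, h1]
  have key : ∀ T : Finset ({i // i ∈ B} × Fin m),
      T.card ≤ (T.biUnion (fun q => t q.1.1)).card := by
    intro T
    let J : Finset V := T.image (fun q => q.1.1)
    have hJB : ∀ i ∈ J, i ∈ B := by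
      intro i hi
      obtain ⟨q, _, rfl⟩ := Finset.mem_image.mp hi
      exact q.1.2
    have h1 : T.card ≤ m * J.card := by
      have : T.card ≤ (J ×ˢ (univ : Finset (Fin m))).card := by
        apply Finset.card_le_card_of_injOn (fun q => (q.1.1, q.2))
        · intro q hq
          simp only [Finset.coe_product, Set.mem_prod, Finset.mem_coe, Finset.mem_univ, and_true]
          exact Finset.mem_image.mpr ⟨q, hq, rfl⟩
        · intro q _ q' _ h
          have h1 := congrArg Prod.fst h
          have h2 := congrArg Prod.snd h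
          exact Prod.ext (Subtype.ext h1) h2
      rw [Finset.card_product, Finset.card_univ, Fintype.card_fin] at this
      rw [Nat.mul_comm]; exact this
    have h2 : T.biUnion (fun q => t q.1.1) = J.biUnion t := by
      ext e
      simp only [Finset.mem_biUnion, J, Finset.mem_image]
      constructor
      · rintro ⟨q, hq, he⟩
        exact ⟨q.1.1, ⟨q, hq, rfl⟩, he⟩
      · rintro ⟨i, ⟨q, hq, rfl⟩, he⟩
        exact ⟨q, hq, he⟩
    have h3 : ∑ i ∈ J, (t i).card ≤ 2 * (J.biUnion t).card := by
      have h4 : ∑ i ∈ J, (t i).card =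
          ∑ e ∈ J.biUnion t, (J.filter (fun i => e ∈ t i)).card := by
        have h5 : ∀ i ∈ J, (t i).card = ∑ e ∈ J.biUnion t, if e ∈ t i then 1 else 0 := by
          intro i hi
          rw [Finset.sum_ite_mem, Finset.sum_const, smul_eq_mul, mul_one]
          congr 1
          rw [Finset.inter_eq_right.mpr (Finset.subset_biUnion_of_mem t hi)]
        rw [Finset.sum_congr rfl h5, Finset.sum_comm]
        apply Finset.sum_congr rfl
        intro e _
        rw [Finset.card_filter]
      rw [h4, Nat.mul_comm, ← smul_eq_mul, ← Finset.sum_const]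
      apply Finset.sum_le_sum
      intro e _
      induction e using Sym2.ind with
      | _ x y =>
        have : J.filter (fun i => s(x, y) ∈ t i) ⊆ {f x, f y} := by
          intro i hi
          rw [Finset.mem_filter] at hi
          rw [Finset.mem_insert, Finset.mem_singleton]
          exact hend i x y hi.2
        exact (Finset.card_le_card this).trans Finset.card_le_two
    have h6 : 2 * m * J.card ≤ ∑ i ∈ J, (t i).card := by
      rw [Nat.mul_comm, ← smul_eq_mul, ← Finset.sum_const]
      exact Finset.sum_le_sum (fun i hi => htc i (hJB i hi))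
    rw [h2]
    nlinarith
  obtain ⟨F, hFinj, hF⟩ :=
    (Finset.all_card_le_biUnion_card_iff_exists_injective
      (fun q : {i // i ∈ B} × Fin m => t q.1.1)).mp key
  have hex : ∀ (i : V) (hi : i ∈ B) (a : Fin m), ∃ p : V × V, p ∈ cand i ∧
      s(p.1, p.2) = F (⟨i, hi⟩, a) := by
    intro i hi a
    have := hF (⟨i, hi⟩, a)
    obtain ⟨p, hp, he⟩ := Finset.mem_image.mp this
    exact ⟨p, hp, he⟩
  refine ⟨fun i a => if hi : i ∈ B then (hex i hi a).choose else (i, i), ?_, ?_⟩
  · intro i hi a
    simp only [hi, dif_pos]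
    exact (hc i _).mp (hex i hi a).choose_spec.1
  · intro i hi a j hj b h
    simp only [hi, hj, dif_pos] at h
    rw [(hex i hi a).choose_spec.2, (hex j hj b).choose_spec.2] at h
    have h2 := hFinj h
    have h3 := congrArg Prod.fst h2
    have h4 := congrArg Prod.snd h2
    exact ⟨congrArg Subtype.val h3, h4⟩

end Pool.Agent.Work.MP_db9399_nc.helper59
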