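import Pool.Agent.Work.MP_db9399_nc.Base

/-!
# MP_db9399, THEOREM NC, block VCOL: the vertex colouring
-/

set_option autoImplicit false
set_option linter.unusedSectionVars false

namespace Pool.Agent.Work.MP_db9399_nc.helper59

open Finset Classical
open Pool.Agent.Work.MP_db9399_all (nb)
open _root_.MP_db9399_co
open Pool.Agent.Work.MP_db9399_nc

universe u

/-- a family of plans -/
structure Plans {V : Type u} [Fintype V] (G : SimpleGraph V) (d x : ℕ) (f hp : V → V)
    (c0 g : V → ℕ) (E : Finset ℕ) (U : V → Finset ℕ) (a : V → ℕ) (cls : V → V) : Prop where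
  pl : ∀ i, ∃ k : V → V, Plan G d x f hp c0 g E i (U i) (a i) k ∧ ∀ v ∈ cl f i, cls v = k v

section
variable {V : Type u} [Fintype V] {G : SimpleGraph V} {d x : ℕ} {f hp : V → V} {c0 g : V → ℕ}
  {E : Finset ℕ} {U : V → Finset ℕ} {a : V → ℕ} {cls : V → V}

/-- colours of the vertices of `H` in a spot -/
noncomputable def im (f hp : V → V) (c0 : V → ℕ) (i : V) : Finset ℕ :=
  ((cl f i).filter (fun v => hp v ≠ v)).image c0

/-- the lists -/
noncomputable def lst (G : SimpleGraph V) (d : ℕ) (f hp : V → V) (c0 : V → ℕ)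
    (U : V → Finset ℕ) (v : V) : Finset ℕ :=
  if hp v = v then range (d + 2) \ ((U (f v) ∪ im f hp c0 (f v)) ∪ Fh G f hp c0 v) else {c0 v}

theorem Plans.get (h : Plans G d x f hp c0 g E U a cls) (i : V) :
    ∃ k : V → V, Plan G d x f hp c0 g E i (U i) (a i) k ∧ ∀ v ∈ cl f i, cls v = k v := h.pl i

theorem Plans.fcls (h : Plans G d x f hp c0 g E U a cls) (v : V) : f (cls v) = f v := by
  obtain ⟨k, hk, hkc⟩ := h.get (f v)
  have hv : v ∈ cl f (f v) := mem_cl.mpr rfl
  rw [hkc v hv]
  exact mem_cl.mp (hk.cmem v hv).1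

theorem Plans.feq (h : Plans G d x f hp c0 g E U a cls) {v w : V} (hvw : cls v = cls w) :
    f v = f w := by
  rw [← h.fcls v, ← h.fcls w, hvw]

theorem Plans.idem (h : Plans G d x f hp c0 g E U a cls) (v : V) : cls (cls v) = cls v := by
  obtain ⟨k, hk, hkc⟩ := h.get (f v)
  have hv : v ∈ cl f (f v) := mem_cl.mpr rfl
  have h1 := hk.cmem v hv
  rw [hkc v hv, hkc _ h1.1]
  exact h1.2

theorem Plans.ind (h : Plans G d x f hp c0 g E U a cls) {v w : V} (hne : v ≠ w)
    (hvw : cls v = cls w) : ¬ G.Adj v w ∧ hp v = v ∧ hp w = w := by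
  obtain ⟨k, hk, hkc⟩ := h.get (f v)
  have hv : v ∈ cl f (f v) := mem_cl.mpr rfl
  have hw : w ∈ cl f (f v) := mem_cl.mpr (h.feq hvw).symm
  refine hk.cind v hv w hw hne ?_
  rw [← hkc v hv, ← hkc w hw, hvw]

theorem Plans.two (h : Plans G d x f hp c0 g E U a cls) (v : V) :
    (univ.filter (fun w => cls w = cls v)).card ≤ 2 := by
  obtain ⟨k, hk, hkc⟩ := h.get (f v)
  have hv : v ∈ cl f (f v) := mem_cl.mpr rfl
  refine le_trans (Finset.card_le_card ?_) (hk.ctwo v hv)
  intro w hw
  rw [Finset.mem_filter] at hw
  have hwc : w ∈ cl f (f v) := mem_cl.mpr (h.feq hw.2)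
  rw [Finset.mem_filter]
  refine ⟨hwc, ?_⟩
  rw [← hkc w hwc, ← hkc v hv, hw.2]

theorem Plans.heavy (h : Plans G d x f hp c0 g E U a cls) (i : V) (α : ℕ) (hα : α ∉ U i) :
    4 * ((cl f i).filter (fun v => hp v = v ∧ α ∈ Fh G f hp c0 v)).card ≤ 3 * d := by
  obtain ⟨k, hk, _⟩ := h.get i
  exact hk.heavy α hα

theorem Plans.Uc (h : Plans G d x f hp c0 g E U a cls) (i : V) : (U i).card ≤ 3 := by
  obtain ⟨k, hk, _⟩ := h.get i
  exact hk.Ucard

theorem Plans.num (h : Plans G d x f hp c0 g E U a cls) (i : V) :
    (((cl f i).filter (fun v => hp v = v)).image cls).card +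
      (U i ∪ im f hp c0 i).card ≤ d + 2 := by
  obtain ⟨k, hk, hkc⟩ := h.get i
  have h1 : ((cl f i).filter (fun v => hp v = v)).image cls =
      ((cl f i).filter (fun v => hp v = v)).image k := by
    apply Finset.image_congr
    intro v hv
    rw [Finset.mem_coe, Finset.mem_filter] at hv
    exact hkc v hv.1
  rw [h1]
  exact hk.num

theorem im_card (hN : NCtx G d x f hp c0 g) (i : V) : (im f hp c0 i).card ≤ 2 :=
  Finset.card_image_le.trans (hN.hcard i)

/-- the free vertices of a class -/
theorem Plans.free_cls (h : Plans G d x f hp c0 g E U a cls) {v z : V} (hv : hp v = v)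
    (hz : cls z = cls v) : hp z = z := by
  by_cases hzv : z = v
  · rw [hzv]; exact hv
  · exact (h.ind hzv hz).2.1

/-- union of the lists of forbidden colours of a class -/
noncomputable def Zc (G : SimpleGraph V) (f hp : V → V) (c0 : V → ℕ) (cls : V → V) (s : V) :
    Finset ℕ := (univ.filter (fun v => cls v = s)).biUnion (fun v => Fh G f hp c0 v)

theorem Zc_card (hN : NCtx G d x f hp c0 g) (h : Plans G d x f hp c0 g E U a cls) (s : V) :
    (Zc G f hp c0 cls s).card ≤ 4 := by
  unfold Zc
  by_cases hs : ∃ v, cls v = s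
  · obtain ⟨v, rfl⟩ := hs
    have h1 := Finset.card_biUnion_le_card_mul (univ.filter (fun w => cls w = cls v))
      (fun w => Fh G f hp c0 w) 2 (fun w _ => hN.Fh_two w)
    have h2 := h.two v
    omega
  · have : univ.filter (fun v => cls v = s) = ∅ := by
      rw [Finset.filter_eq_empty_iff]
      intro v _ hv
      exact hs ⟨v, hv⟩
    rw [this]
    simp

/-- a first good colouring of one spot -/
theorem spot (hNE : Stmt_NE.{u}) (hN : NCtx G d x f hp c0 g)
    (h : Plans G d x f hp c0 g E U a cls) (i : V) :
    ∃ σ : V → ℕ, Set.InjOn σ ((((cl f i).filter (fun v => hp v = v)).image cls : Finset V) : Set V) ∧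
      ∀ v, f v = i → hp v = v → σ (cls v) ∈ range (d + 2) \ (U i ∪ im f hp c0 i) ∧
        σ (cls v) ∉ Fh G f hp c0 v := by
  have hd : 100000 ≤ d := by
    have := hN.x1; have := hN.xd; omega
  set S := ((cl f i).filter (fun v => hp v = v)).image cls with hS
  set P := range (d + 2) \ (U i ∪ im f hp c0 i) with hP
  have hPc : d + 2 ≤ P.card + (U i ∪ im f hp c0 i).card := by
    have h0 : range (d + 2) ⊆ P ∪ (U i ∪ im f hp c0 i) := by
      intro b hb
      rw [Finset.mem_union, hP, Finset.mem_sdiff]
      by_cases hb2 : b ∈ U i ∪ im f hp c0 i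
      · exact Or.inr hb2
      · exact Or.inl ⟨hb, hb2⟩
    have h1 := Finset.card_le_card h0
    rw [Finset.card_range] at h1
    have h2 := Finset.card_union_le P (U i ∪ im f hp c0 i)
    omega
  have hUi : (U i ∪ im f hp c0 i).card ≤ 5 := by
    have h1 := Finset.card_union_le (U i) (im f hp c0 i)
    have h2 := h.Uc i
    have h3 := im_card hN i
    omega
  obtain ⟨σ, hinj, hσ⟩ := hNE S P (Zc G f hp c0 cls) 4 (by
      have := h.num i
      rw [← hS] at this
      omega) (fun s _ => Zc_card hN h s) (by
      intro α hα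
      have hαU : α ∉ U i := by
        intro hc
        rw [hP, Finset.mem_sdiff] at hα
        exact hα.2 (Finset.mem_union_left _ hc)
      have h1 := h.heavy i α hαU
      have h2 : (S.filter (fun s => α ∈ Zc G f hp c0 cls s)).card ≤
          ((cl f i).filter (fun v => hp v = v ∧ α ∈ Fh G f hp c0 v)).card := by
        have hsub : S.filter (fun s => α ∈ Zc G f hp c0 cls s) ⊆
            ((cl f i).filter (fun v => hp v = v ∧ α ∈ Fh G f hp c0 v)).image cls := by
          intro s hs
          rw [Finset.mem_filter] at hs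
          obtain ⟨hs1, hs2⟩ := hs
          unfold Zc at hs2
          rw [Finset.mem_biUnion] at hs2
          obtain ⟨v, hv, hvα⟩ := hs2
          rw [Finset.mem_filter] at hv
          rw [hS, Finset.mem_image] at hs1
          obtain ⟨w, hw, hws⟩ := hs1
          rw [Finset.mem_filter, mem_cl] at hw
          rw [Finset.mem_image]
          refine ⟨v, ?_, hv.2⟩
          rw [Finset.mem_filter, mem_cl]
          refine ⟨?_, ?_, hvα⟩
          · rw [← hw.1]
            exact h.feq (hv.2.trans hws.symm)
          · exact h.free_cls hw.2 (hv.2.trans hws.symm)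
        exact (Finset.card_le_card hsub).trans Finset.card_image_le
      omega)
  refine ⟨σ, hinj, ?_⟩
  intro v hv hpv
  have hvS : cls v ∈ S := by
    rw [hS, Finset.mem_image]
    exact ⟨v, Finset.mem_filter.mpr ⟨mem_cl.mpr hv, hpv⟩, rfl⟩
  have h1 := hσ (cls v) hvS
  refine ⟨h1.1, ?_⟩
  intro hc
  apply h1.2
  unfold Zc
  rw [Finset.mem_biUnion]
  exact ⟨v, Finset.mem_filter.mpr ⟨Finset.mem_univ _, rfl⟩, hc⟩

theorem c0_im {v : V} (hv : hp v ≠ v) : c0 v ∈ im f hp c0 (f v) := by
  unfold im
  rw [Finset.mem_image]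
  exact ⟨v, Finset.mem_filter.mpr ⟨mem_cl.mpr rfl, hv⟩, rfl⟩

theorem good (hNE : Stmt_NE.{u}) (hN : NCtx G d x f hp c0 g)
    (h : Plans G d x f hp c0 g E U a cls) :
    ∃ c : V → ℕ, Good f cls (lst G d f hp c0 U) c := by
  choose σ hinj hσ using fun i => spot hNE hN h i
  refine ⟨fun v => if hp v = v then σ (f v) (cls v) else c0 v, ?_, ?_⟩
  · intro v
    by_cases hv : hp v = v
    · simp only [hv, if_true, lst]
      have h1 := hσ (f v) v rfl hv
      rw [Finset.mem_sdiff] at h1 ⊢
      refine ⟨h1.1.1, ?_⟩
      rw [Finset.mem_union]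
      rintro (h2 | h2)
      · exact h1.1.2 h2
      · exact h1.2 h2
    · simp only [hv, if_false, lst, Finset.mem_singleton]
  · intro v w hf
    by_cases hv : hp v = v
    · by_cases hw : hp w = w
      · simp only [hv, hw, if_true]
        constructor
        · intro hc
          rw [← hf] at hc
          refine hinj (f v) ?_ ?_ hc
          · exact Finset.mem_coe.mpr (Finset.mem_image.mpr
              ⟨v, Finset.mem_filter.mpr ⟨mem_cl.mpr rfl, hv⟩, rfl⟩)
          · exact Finset.mem_coe.mpr (Finset.mem_image.mpr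
              ⟨w, Finset.mem_filter.mpr ⟨mem_cl.mpr hf.symm, hw⟩, rfl⟩)
        · intro hc
          rw [hf, hc]
      · simp only [hv, hw, if_true, if_false]
        constructor
        · intro hc
          exfalso
          have h1 := (hσ (f v) v rfl hv).1
          rw [Finset.mem_sdiff, Finset.mem_union] at h1
          apply h1.2
          right
          rw [hc, hf]
          exact c0_im hw
        · intro hc
          exfalso
          have hne : v ≠ w := by rintro rfl; exact hw hv
          exact hw (h.ind hne hc).2.2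
    · by_cases hw : hp w = w
      · simp only [hv, hw, if_true, if_false]
        constructor
        · intro hc
          exfalso
          have h1 := (hσ (f w) w rfl hw).1
          rw [Finset.mem_sdiff, Finset.mem_union] at h1
          apply h1.2
          right
          rw [← hc, ← hf]
          exact c0_im hv
        · intro hc
          exfalso
          have hne : v ≠ w := by rintro rfl; exact hv hw
          exact hv (h.ind hne hc).2.1
      · simp only [hv, hw, if_false]
        constructor
        · intro hc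
          by_contra hcl
          have hne : v ≠ w := by rintro rfl; exact hcl rfl
          have h1 := hN.pair hf hv hw hne
          rw [h1] at hc
          exact hN.hd.cc v hv hc
        · intro hc
          by_cases hne : v = w
          · rw [hne]
          · exact absurd (h.ind hne hc).2.1 hv

/-- the graph of the edges between different spots -/
def cross (G : SimpleGraph V) (f : V → V) : SimpleGraph V where
  Adj v w := G.Adj v w ∧ f v ≠ f w
  symm := ⟨fun _ _ h => ⟨h.1.symm, h.2.symm⟩⟩
  loopless := ⟨fun v h => G.loopless.irrefl v h.1⟩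

theorem colour (hNE : Stmt_NE.{u}) (hL : Stmt_LSW.{u}) (hN : NCtx G d x f hp c0 g)
    (h : Plans G d x f hp c0 g E U a cls) :
    ∃ c : V → ℕ, Good f cls (lst G d f hp c0 U) c ∧
      ∀ v w, hp v = v → hp w = w → G.Adj v w → f v ≠ f w → c v ≠ c w := by
  have hx1 := hN.x1
  have hxd := hN.xd
  have hd : 100000 ≤ d := by omega
  obtain ⟨c, hc1, hc2⟩ := hL (cross G f) (d + 2) (d / 5) x f cls (lst G d f hp c0 U)
    (univ.filter (fun v => hp v = v)) (fun v w hvw => hvw.2)
    (by
      intro v
      have h1 : nb (cross G f) v ⊆ out G f v := by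
        intro w hw
        rw [mem_nb] at hw
        exact mem_out.mpr ⟨hw.1, hw.2.symm⟩
      exact (Finset.card_le_card h1).trans (hN.od v))
    (fun v w hvw => h.feq hvw) (fun v => h.two v)
    (by
      intro i
      by_cases hi : ∃ v, f v = i
      · obtain ⟨v, rfl⟩ := hi
        have := hN.card_cl v
        omega
      · have : cl f i = ∅ := by
          rw [Finset.eq_empty_iff_forall_notMem]
          intro v hv
          exact hi ⟨v, mem_cl.mp hv⟩
        rw [this]
        simp)
    (by
      intro v b hb
      unfold lst at hb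
      split_ifs at hb with hv
      · rw [Finset.mem_sdiff, Finset.mem_range] at hb
        exact hb.1
      · rw [Finset.mem_singleton] at hb
        rw [hb]
        exact hN.hd.clt v hv)
    (by
      intro v hv α hα
      rw [Finset.mem_filter] at hv
      have hpv := hv.2
      unfold lst at hα
      rw [if_pos hpv, Finset.mem_sdiff, Finset.mem_union, Finset.mem_union] at hα
      push Not at hα
      obtain ⟨hα1, ⟨hα2, hα3⟩, hα4⟩ := hα
      have h1 := h.heavy (f v) α hα2
      have h2 : ((cl f (f v)).filter (fun z => α ∉ lst G d f hp c0 U z)).card ≤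
          ((cl f (f v)).filter (fun v => hp v = v ∧ α ∈ Fh G f hp c0 v)).card +
            ((cl f (f v)).filter (fun v => hp v ≠ v)).card := by
        rw [← Finset.card_union_of_disjoint]
        · apply Finset.card_le_card
          intro z hz
          rw [Finset.mem_filter] at hz
          rw [Finset.mem_union, Finset.mem_filter, Finset.mem_filter]
          by_cases hpz : hp z = z
          · left
            refine ⟨hz.1, hpz, ?_⟩
            by_contra hc
            apply hz.2
            unfold lst
            rw [if_pos hpz, Finset.mem_sdiff, Finset.mem_union, Finset.mem_union, mem_cl.mp hz.1]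
            push Not
            exact ⟨hα1, ⟨hα2, hα3⟩, hc⟩
          · right
            exact ⟨hz.1, hpz⟩
        · rw [Finset.disjoint_left]
          intro z hz hz'
          rw [Finset.mem_filter] at hz hz'
          exact hz'.2 hz.2.1
      have h3 := hN.hcard (f v)
      have h4 : d ≤ ((range (d + 2)).filter
          (fun β => ∀ z, cls z = cls v → β ∈ lst G d f hp c0 U z)).card + 7 := by
        have h5 : range (d + 2) ⊆ ((range (d + 2)).filter
            (fun β => ∀ z, cls z = cls v → β ∈ lst G d f hp c0 U z)) ∪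
            ((U (f v) ∪ im f hp c0 (f v)) ∪ Zc G f hp c0 cls (cls v)) := by
          intro β hβ
          by_cases hβ2 : β ∈ (U (f v) ∪ im f hp c0 (f v)) ∪ Zc G f hp c0 cls (cls v)
          · exact Finset.mem_union_right _ hβ2
          · apply Finset.mem_union_left
            rw [Finset.mem_filter]
            refine ⟨hβ, ?_⟩
            intro z hz
            have hpz := h.free_cls hpv hz
            unfold lst
            rw [if_pos hpz, Finset.mem_sdiff, h.feq hz]
            refine ⟨hβ, ?_⟩
            intro hc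
            apply hβ2
            rw [Finset.mem_union] at hc ⊢
            rcases hc with hc | hc
            · exact Or.inl hc
            · right
              unfold Zc
              rw [Finset.mem_biUnion]
              exact ⟨z, Finset.mem_filter.mpr ⟨Finset.mem_univ _, hz⟩, hc⟩
        have h6 := Finset.card_le_card h5
        rw [Finset.card_range] at h6
        have h7 := Finset.card_union_le ((range (d + 2)).filter
            (fun β => ∀ z, cls z = cls v → β ∈ lst G d f hp c0 U z))
            ((U (f v) ∪ im f hp c0 (f v)) ∪ Zc G f hp c0 cls (cls v))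
        have h8 := Finset.card_union_le (U (f v) ∪ im f hp c0 (f v)) (Zc G f hp c0 cls (cls v))
        have h9 := Finset.card_union_le (U (f v)) (im f hp c0 (f v))
        have h10 := h.Uc (f v)
        have h11 := im_card hN (f v)
        have h12 := Zc_card hN h (cls v)
        omega
      omega)
    (by omega)
    (by
      have h1 : 200 * (d + 2) * x * 500 ≤ d * (d + 2) := by nlinarith
      have h2 : d ≤ 5 * (d / 5) + 4 := by omega
      have h3 : 99996 ≤ 5 * (d / 5) := by omega
      nlinarith)
    (good hNE hN h)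
  refine ⟨c, hc1, ?_⟩
  intro v w hv hw hvw hf
  exact hc2 v (Finset.mem_filter.mpr ⟨Finset.mem_univ _, hv⟩) w
    (Finset.mem_filter.mpr ⟨Finset.mem_univ _, hw⟩) ⟨hvw, hf⟩

theorem fin (hN : NCtx G d x f hp c0 g) (h : Plans G d x f hp c0 g E U a cls) (c : V → ℕ)
    (hc : Good f cls (lst G d f hp c0 U) c)
    (hx : ∀ v w, hp v = v → hp w = w → G.Adj v w → f v ≠ f w → c v ≠ c w) :
    VC G d x f hp c0 g E c a := by
  have hfree : ∀ v, hp v = v → c v ∈ range (d + 2) ∧ c v ∉ U (f v) ∧
      c v ∉ im f hp c0 (f v) ∧ c v ∉ Fh G f hp c0 v := by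
    intro v hv
    have h1 := hc.1 v
    unfold lst at h1
    rw [if_pos hv, Finset.mem_sdiff, Finset.mem_union, Finset.mem_union] at h1
    push Not at h1
    exact ⟨h1.1, h1.2.1.1, h1.2.1.2, h1.2.2⟩
  have hext : ∀ v, hp v ≠ v → c v = c0 v := by
    intro v hv
    have h1 := hc.1 v
    unfold lst at h1
    rw [if_neg hv, Finset.mem_singleton] at h1
    exact h1
  have hmix : ∀ v w, hp v = v → hp w ≠ w → G.Adj v w → f v ≠ f w → c v ≠ c w := by
    intro v w hv hw hvw hf he
    apply (hfree v hv).2.2.2
    rw [mem_Fh]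
    exact ⟨w, hvw, hf.symm, hw, by rw [he, hext w hw]⟩
  have hcls : ∀ i, ∀ v ∈ cl f i, ∀ w ∈ cl f i, c v = c w → cls v = cls w := by
    intro i v hv w hw he
    exact (hc.2 v w ((mem_cl.mp hv).trans (mem_cl.mp hw).symm)).mp he
  refine ⟨?_, ?_, hext, ?_, ?_, ?_, ?_, ?_, ?_, ?_⟩
  · intro v
    by_cases hv : hp v = v
    · exact Finset.mem_range.mp (hfree v hv).1
    · rw [hext v hv]
      exact hN.hd.clt v hv
  · intro v w hvw he
    have hne : v ≠ w := fun hh => G.loopless.irrefl v (by rw [hh] at hvw ⊢; exact hvw)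
    by_cases hf : f v = f w
    · exact (h.ind hne ((hc.2 v w hf).mp he)).1 hvw
    · by_cases hv : hp v = v
      · by_cases hw : hp w = w
        · exact hx v w hv hw hvw hf he
        · exact hmix v w hv hw hvw hf he
      · by_cases hw : hp w = w
        · exact hmix w v hw hv hvw.symm (Ne.symm hf) he.symm
        · by_cases hwp : w = hp v
          · rw [hext v hv, hext w hw, hwp] at he
            exact hN.hd.cc v hv he
          · exact (hN.hd.far v w hv hw hne hwp).1 hvw
  · intro i b
    by_cases hb : ∃ v ∈ cl f i, c v = b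
    · obtain ⟨v, hv, rfl⟩ := hb
      refine le_trans (Finset.card_le_card ?_) (h.two v)
      intro w hw
      rw [Finset.mem_filter] at hw
      rw [Finset.mem_filter]
      exact ⟨Finset.mem_univ _, hcls i w hw.1 v hv hw.2⟩
    · have : (cl f i).filter (fun v => c v = b) = ∅ := by
        rw [Finset.filter_eq_empty_iff]
        intro v hv hvb
        exact hb ⟨v, hv, hvb⟩
      rw [this]
      simp
  · intro i
    obtain ⟨k, hk, hkc⟩ := h.get i
    refine le_trans ?_ hk.pairs
    have hex : ∀ b ∈ (range (d + 2)).filter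
        (fun b => ((cl f i).filter (fun v => c v = b)).card = 2),
        ∃ v ∈ (cl f i).filter (fun v => k v ≠ v), c v = b := by
      intro b hb
      rw [Finset.mem_filter] at hb
      obtain ⟨v, w, hvw, hvweq⟩ := Finset.card_eq_two.mp hb.2
      have hv : v ∈ (cl f i).filter (fun v => c v = b) := by rw [hvweq]; simp
      have hw : w ∈ (cl f i).filter (fun v => c v = b) := by rw [hvweq]; simp
      rw [Finset.mem_filter] at hv hw
      have he := hcls i v hv.1 w hw.1 (hv.2.trans hw.2.symm)
      rw [hkc v hv.1, hkc w hw.1] at he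
      by_cases hkv : k v = v
      · refine ⟨w, Finset.mem_filter.mpr ⟨hw.1, ?_⟩, hw.2⟩
        intro hkw
        exact hvw (by rw [← hkv, ← hkw, he])
      · exact ⟨v, Finset.mem_filter.mpr ⟨hv.1, hkv⟩, hv.2⟩
    have hsub : (range (d + 2)).filter
        (fun b => ((cl f i).filter (fun v => c v = b)).card = 2) ⊆
        ((cl f i).filter (fun v => k v ≠ v)).image c := by
      intro b hb
      obtain ⟨v, hv, hvb⟩ := hex b hb
      exact Finset.mem_image.mpr ⟨v, hv, hvb⟩
    exact (Finset.card_le_card hsub).trans Finset.card_image_le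
  · intro i hi v hv w hw he
    obtain ⟨k, hk, hkc⟩ := h.get i
    rw [Finset.mem_coe] at hv hw
    have h1 := hcls i v hv w hw he
    rw [hkc v hv, hkc w hw, hk.small hi v hv, hk.small hi w hw] at h1
    exact h1
  · intro i
    obtain ⟨k, hk, hkc⟩ := h.get i
    exact hk.alt
  · intro i
    obtain ⟨k, hk, hkc⟩ := h.get i
    exact hk.aE
  · intro v hv
    obtain ⟨k, hk, hkc⟩ := h.get (f v)
    exact (hk.ah v (mem_cl.mpr rfl) hv).1
  · intro v
    obtain ⟨k, hk, hkc⟩ := h.get (f v)
    by_cases hv : hp v = v
    · intro he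
      apply (hfree v hv).2.1
      rw [he]
      exact hk.aU
    · rw [hext v hv]
      exact (hk.ah v (mem_cl.mpr rfl) hv).2.symm

end

theorem stmt_VCOL (hPL : Stmt_PLAN.{u}) (hNE : Stmt_NE.{u}) (hL : Stmt_LSW.{u}) :
    Stmt_VCOL.{u} := by
  intro V _ G d x f hp c0 g hN E hE
  choose U a k hk using fun i => hPL G d x f hp c0 g hN E hE i
  have hP : Plans G d x f hp c0 g E U a (fun v => k (f v) v) := by
    refine ⟨fun i => ⟨k i, hk i, ?_⟩⟩
    intro v hv
    show k (f v) v = k i v
    rw [mem_cl.mp hv]
  obtain ⟨c, hc, hx⟩ := colour hNE hL hN hP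
  exact ⟨c, a, fin hN hP c hc hx⟩

end Pool.Agent.Work.MP_db9399_nc.helper59
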